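import Pool.Agent.Y904.BHX.DDs
import Pool.Agent.H341Q.BHMain

/-!
# A meagre set of Hausdorff dimension zero without an invariant analytic meagre hull
-/

set_option autoImplicit false

namespace Pool.Agent.Y904.BHX

open Filter MeasureTheory Metric Pool.Agent.H341Q.BH Topology
open scoped ENNReal NNReal Nat

/-- preimages of analytic sets under Borel maps -/
theorem analytic_preimage {X : Type} [tX : TopologicalSpace X] [PolishSpace X] [MeasurableSpace X]
    [BorelSpace X] {f : X → ℝ} (hf : Measurable f) {s : Set ℝ} (hs : AnalyticSet s) :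
    AnalyticSet (f ⁻¹' s) := by
  obtain ⟨t', ht, hc, hp⟩ := hf.exists_continuous
  have h1 : @AnalyticSet X t' (f ⁻¹' s) := @AnalyticSet.preimage X ℝ t' _ hp _ s hs f hc
  have h2 := @AnalyticSet.image_of_continuous X t' X tX (f ⁻¹' s) h1 id (continuous_id_of_le ht)
  rw [Set.image_id] at h2
  exact h2

/-- Every coanalytic comeagre set that is invariant under the group meets the meagre set `Cset`
(`core` of `Pool/Agent/H341Q/BHMain.lean`, where the set is Borel). -/
theorem core2 (G : Set ℝ) (hG : AnalyticSet Gᶜ) (hm : IsMeagre Gᶜ)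
    (hinv : ∀ x ∈ G, ∀ a : Br, x + p a ∈ G) : (G ∩ Cset).Nonempty := by
  by_contra hcon
  rw [Set.not_nonempty_iff_eq_empty] at hcon
  obtain ⟨T, hT1, hT2, hT3⟩ : ∃ T ⊆ G, IsGδ T ∧ Dense T := by
    rw [← mem_residual]
    rw [IsMeagre, compl_compl] at hm
    exact hm
  obtain ⟨f, hf1, hf2⟩ := isGδ_iff_eq_iInter_nat.1 hT2
  set U : ℕ → Set ℝ := fun j => ⋂ i ∈ Finset.range (j + 1), f i with hUdef
  have hU : ∀ j, IsOpen (U j) := fun j => isOpen_biInter_finset fun i _ => hf1 i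
  have hTU : ∀ j, T ⊆ U j := by
    intro j x hx
    rw [hf2, Set.mem_iInter] at hx
    exact Set.mem_iInter₂.2 fun i _ => hx i
  have hd : ∀ j, Dense (U j) := fun j => hT3.mono (hTU j)
  have hanti : Antitone U := by
    intro j j' h x hx
    rw [Set.mem_iInter₂] at hx ⊢
    intro i hi
    rw [Finset.mem_range] at hi
    exact hx i (Finset.mem_range.2 (by omega))
  have hUG : (⋂ j, U j) ⊆ G := by
    intro x hx
    apply hT1
    rw [hf2, Set.mem_iInter]
    intro i
    rw [Set.mem_iInter] at hx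
    exact Set.mem_iInter₂.1 (hx i) i (Finset.mem_range.2 (Nat.lt_succ_self i))
  obtain ⟨Zf, hZ1, hZ2⟩ := exists_run U hU hd
  have hmeas : Measurable (fun y : ℕ → Bool => Zf (tt y)) := by
    apply measurable_of_tendsto_metrizable (f := fun j y => (sl U hU hd (bl (tt y) j)).z)
    · intro j A hA
      have h : (fun y : ℕ → Bool => (sl U hU hd (bl (tt y) j)).z) ⁻¹' A =
          ⋃ L ∈ {L : List Bool | (sl U hU hd L).z ∈ A}, {y | bl (tt y) j = L} := by
        ext y
        simp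
      rw [h]
      exact MeasurableSet.biUnion (Set.to_countable _)
        (fun L _ => measurable_bl tt measurable_tt j L)
    · rw [tendsto_pi_nhds]
      intro y
      exact hZ1 (tt y)
  have hset : {y : ℕ → Bool | ¬ IllF y} = (fun y : ℕ → Bool => Zf (tt y)) ⁻¹' Gᶜ := by
    ext y
    rw [Set.mem_preimage, Set.mem_compl_iff]
    obtain ⟨m, a, R⟩ := hZ2 (tt y)
    constructor
    · intro h hG'
      have h1 : Zf (tt y) ∈ Cset := fun κ => R.wf h κ
      have h2 : Zf (tt y) ∈ G ∩ Cset := ⟨hG', h1⟩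
      rw [hcon] at h2
      exact h2
    · intro h hI
      apply h
      obtain ⟨c, hc⟩ := R.ill hanti hI
      have h1 : Zf (tt y) - p c ∈ G := hUG (Set.mem_iInter.2 hc)
      have h2 := hinv _ h1 c
      rwa [sub_add_cancel] at h2
  apply not_analytic
  rw [hset]
  exact analytic_preimage hmeas hG

/-- lines through comeagre many points meet a meagre set in a meagre set -/
theorem ku {d : ℕ} (B : Set (Fin d → ℝ)) (hB : IsMeagre B) (v : Fin d → ℝ) :
    ∀ᶠ x in residual (Fin d → ℝ), IsMeagre {t : ℝ | x + t • v ∈ B} := by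
  obtain ⟨T, hT1, hT2, hT3⟩ : ∃ T ⊆ Bᶜ, IsGδ T ∧ Dense T := by
    rw [← mem_residual]
    exact hB
  obtain ⟨f, hf1, hf2⟩ := isGδ_iff_eq_iInter_nat.1 hT2
  have hd : ∀ j, Dense (f j) := fun j => hT3.mono (by rw [hf2]; exact Set.iInter_subset _ j)
  have h1 : ∀ (j : ℕ) (a b : ℚ), a < b →
      ∀ᶠ x in residual (Fin d → ℝ), ∃ t : ℝ, a < t ∧ t < b ∧ x + t • v ∈ f j := by
    intro j a b hab
    apply residual_of_dense_open
    · have e : {x : Fin d → ℝ | ∃ t : ℝ, a < t ∧ t < b ∧ x + t • v ∈ f j} =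
          ⋃ t ∈ {t : ℝ | a < t ∧ t < b}, (fun x : Fin d → ℝ => x + t • v) ⁻¹' f j := by
        ext x
        simp only [Set.mem_ofPred_eq, Set.mem_iUnion, Set.mem_preimage, exists_prop]
        constructor
        · rintro ⟨t, h1, h2, h3⟩
          exact ⟨t, ⟨h1, h2⟩, h3⟩
        · rintro ⟨t, ⟨h1, h2⟩, h3⟩
          exact ⟨t, h1, h2, h3⟩
      show IsOpen {x : Fin d → ℝ | ∃ t : ℝ, a < t ∧ t < b ∧ x + t • v ∈ f j}
      rw [e]
      exact isOpen_biUnion fun t _ => (hf1 j).preimage (continuous_add_const _)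
    · obtain ⟨t, ht1, ht2⟩ := exists_between (by exact_mod_cast hab : (a : ℝ) < b)
      have h2 : Dense ((fun x : Fin d → ℝ => x + t • v) ⁻¹' f j) :=
        (hd j).preimage (isOpenMap_add_right (t • v))
      exact h2.mono fun x hx => ⟨t, ht1, ht2, hx⟩
  have h2 : ∀ᶠ x in residual (Fin d → ℝ), ∀ (j : ℕ) (a b : ℚ), a < b →
      ∃ t : ℝ, a < t ∧ t < b ∧ x + t • v ∈ f j := by
    rw [eventually_countable_forall]
    intro j
    rw [eventually_countable_forall]
    intro a
    rw [eventually_countable_forall]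
    intro b
    by_cases hab : a < b
    · exact (h1 j a b hab).mono fun x hx _ => hx
    · exact Eventually.of_forall fun x h => absurd h hab
  filter_upwards [h2] with x hx
  have h3 : (⋂ j, {t : ℝ | x + t • v ∈ f j}) ∈ residual ℝ := by
    rw [countable_iInter_mem]
    intro j
    refine residual_of_dense_open ?_ ?_
    · exact (hf1 j).preimage (by fun_prop : Continuous fun t : ℝ => x + t • v)
    · rw [dense_iff_inter_open]
      intro O hO ⟨t0, ht0⟩
      obtain ⟨ε, hε, hball⟩ := Metric.isOpen_iff.1 hO t0 ht0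
      obtain ⟨a, ha1, ha2⟩ := exists_rat_btwn (by linarith : t0 - ε < t0)
      obtain ⟨b, hb1, hb2⟩ := exists_rat_btwn (by linarith : t0 < t0 + ε)
      have hab : a < b := by exact_mod_cast ha2.trans hb1
      obtain ⟨t, ht1, ht2, ht3⟩ := hx j a b hab
      refine ⟨t, hball ?_, ht3⟩
      rw [Metric.mem_ball, Real.dist_eq, abs_lt]
      constructor <;> linarith
  refine Filter.mem_of_superset h3 fun t ht hB' => ?_
  have h4 : x + t • v ∈ T := by
    rw [hf2, Set.mem_iInter]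
    exact fun j => Set.mem_iInter.1 ht j
  exact hT1 h4 hB'

/-- infinitely many levels at which all coordinates are close to the lattice -/
theorem all_W (d : ℕ) : ∀ᶠ x in residual (Fin d → ℝ), ∃ᶠ n in atTop, ∀ i, x i ∈ W n := by
  have h1 : (⋂ m : ℕ, ⋃ n ≥ m, {x : Fin d → ℝ | ∀ i, x i ∈ W n}) ∈ residual (Fin d → ℝ) := by
    rw [countable_iInter_mem]
    intro m
    refine residual_of_dense_open (isOpen_biUnion fun n _ => ?_) ?_
    · have e : {x : Fin d → ℝ | ∀ i, x i ∈ W n} = ⋂ i, (fun x : Fin d → ℝ => x i) ⁻¹' W n := by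
        ext x
        simp
      rw [e]
      exact isOpen_iInter_of_finite fun i => (isOpen_W n).preimage (continuous_apply i)
    · rw [Metric.dense_iff]
      intro x r hr
      obtain ⟨N, hN⟩ := exists_nat_gt (1 / r)
      set n := max N m with hn
      have hq : (0 : ℝ) < q n := by exact_mod_cast q_pos n
      have hQ : (0 : ℝ) < Q n := by exact_mod_cast Q_pos n
      have h1 := q_ge n
      have h2 : (N : ℝ) ≤ n := by exact_mod_cast le_max_left _ _
      have h3 : 1 < r * q n := by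
        rw [div_lt_iff₀ hr] at hN
        nlinarith
      refine ⟨fun i => (round ((q n : ℝ) * x i) : ℝ) / q n, ?_, ?_⟩
      · rw [Metric.mem_ball, dist_pi_lt_iff hr]
        intro i
        rw [Real.dist_eq]
        have h4 : (round ((q n : ℝ) * x i) : ℝ) / q n - x i =
          -((q n : ℝ) * x i - round ((q n : ℝ) * x i)) / q n := by field_simp; ring
        rw [h4, abs_div, abs_neg, abs_of_pos hq, div_lt_iff₀ hq]
        have := abs_sub_round ((q n : ℝ) * x i)
        linarith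
      · rw [Set.mem_iUnion₂]
        refine ⟨n, le_max_right _ _, fun i => ⟨round ((q n : ℝ) * x i), ?_⟩⟩
        have h5 : (q n : ℝ) * ((round ((q n : ℝ) * x i) : ℝ) / q n) - round ((q n : ℝ) * x i) = 0 := by
          field_simp; ring
        rw [h5, abs_zero]
        positivity
  refine Filter.mem_of_superset h1 fun x hx => ?_
  show ∃ᶠ n in atTop, ∀ i, x i ∈ W n
  rw [frequently_atTop]
  intro m
  rw [Set.mem_iInter] at hx
  have := hx m
  rw [Set.mem_iUnion₂] at this
  obtain ⟨n, hn, hW⟩ := this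
  exact ⟨n, hn, hW⟩

/-- the meagre set of dimension zero in `ℝ^d` -/
def AS (d : ℕ) (i0 : Fin d) : Set (Fin d → ℝ) :=
  {x | x i0 ∈ Cset ∧ ∃ k : ℕ, ∃ᶠ n in atTop, x i0 ∈ DD k n ∧ ∀ i, i ≠ i0 → x i ∈ W n}

theorem dim_AS (d : ℕ) (i0 : Fin d) : dimH (AS d i0) = 0 := by
  have h1 : AS d i0 ⊆ ⋃ k : ℕ, {x : Fin d → ℝ | ∃ᶠ n in atTop, ∀ i, x i ∈ DD k n} := by
    rintro x ⟨_, k, hk⟩
    rw [Set.mem_iUnion]
    refine ⟨k + 1, hk.mono fun n hn i => ?_⟩
    by_cases hi : i = i0
    · rw [hi]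
      exact DD_mono (Nat.le_succ k) hn.1
    · exact DD_mono (by omega) (W_sub n (hn.2 i hi))
  refine le_antisymm ((dimH_mono h1).trans ?_) bot_le
  rw [dimH_iUnion]
  exact iSup_le fun C => (dim_DD d C).le

theorem meagre_AS (d : ℕ) (i0 : Fin d) : IsMeagre (AS d i0) := by
  have h1 : IsMeagre ((fun x : Fin d → ℝ => x i0) ⁻¹' Cset) :=
    meagre_C.preimage_of_isOpenMap (continuous_apply i0) (isOpenMap_eval i0)
  exact h1.mono fun x hx => hx.1

theorem AS_shift {d : ℕ} {i0 : Fin d} {x : Fin d → ℝ} (hx : x ∈ AS d i0) (μ : Br →₀ ℤ) :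
    x + Pi.single i0 (hs μ) ∈ AS d i0 := by
  obtain ⟨h1, k, hk⟩ := hx
  have e0 : (x + (Pi.single i0 (hs μ) : Fin d → ℝ)) i0 = x i0 + hs μ := by
    rw [Pi.add_apply, Pi.single_eq_same]
  refine ⟨?_, k + (wt μ).toNat, hk.mono fun n hn => ⟨?_, fun i hi => ?_⟩⟩
  · rw [e0]
    exact C_inv h1 μ
  · rw [e0]
    exact DD_shift hn.1 μ
  · rw [Pi.add_apply, Pi.single_eq_of_ne hi, add_zero]
    exact hn.2 i hi

lemma hs_neg (μ : Br →₀ ℤ) : hs (-μ) = - hs μ := by
  have := hs_add (-μ) μ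
  rw [neg_add_cancel, hs_zero] at this
  linarith

/-- the sets `DD` along a set of levels -/
def DS (S : Set ℕ) : Set ℝ := {t | ∃ k : ℕ, ∃ᶠ n in atTop, n ∈ S ∧ t ∈ DD k n}

lemma DD_closed_union (k n : ℕ) : MeasurableSet (DD k n) := by
  have e : DD k n = ⋃ (m : ℤ) (c : ℤ) (_ : ∃ κ : Br →₀ ℤ, wt κ ≤ k ∧ E n κ = c),
      {x : ℝ | |(q (n + 1) : ℝ) * x - ((m * Q n + c : ℤ) : ℝ)| ≤ k} := by
    ext x
    simp only [DD, Set.mem_ofPred_eq, Set.mem_iUnion, exists_prop]
    constructor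
    · rintro ⟨m, κ, h1, h2⟩
      exact ⟨m, _, ⟨κ, h1, rfl⟩, h2⟩
    · rintro ⟨m, c, ⟨κ, h1, rfl⟩, h2⟩
      exact ⟨m, κ, h1, h2⟩
  rw [e]
  refine MeasurableSet.iUnion fun m => MeasurableSet.iUnion fun c => MeasurableSet.iUnion fun _ => ?_
  exact (isClosed_le (by fun_prop) continuous_const).measurableSet

lemma DS_meas (S : Set ℕ) : MeasurableSet (DS S) := by
  have e : DS S = ⋃ k : ℕ, ⋂ N : ℕ, ⋃ (n : ℕ) (_ : N ≤ n ∧ n ∈ S), DD k n := by
    ext t
    simp only [DS, Set.mem_ofPred_eq, Set.mem_iUnion, Set.mem_iInter, exists_prop,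
      frequently_atTop]
    constructor
    · rintro ⟨k, hk⟩
      refine ⟨k, fun N => ?_⟩
      obtain ⟨n, h1, h2, h3⟩ := hk N
      exact ⟨n, ⟨h1, h2⟩, h3⟩
    · rintro ⟨k, hk⟩
      refine ⟨k, fun N => ?_⟩
      obtain ⟨n, ⟨h1, h2⟩, h3⟩ := hk N
      exact ⟨n, h1, h2, h3⟩
  rw [e]
  exact MeasurableSet.iUnion fun k => MeasurableSet.iInter fun N => MeasurableSet.iUnion fun n =>
    MeasurableSet.iUnion fun _ => DD_closed_union k n

lemma DS_shift {S : Set ℕ} {t : ℝ} (ht : t ∈ DS S) (μ : Br →₀ ℤ) : t + hs μ ∈ DS S := by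
  obtain ⟨k, hk⟩ := ht
  exact ⟨k + (wt μ).toNat, hk.mono fun n hn => ⟨hn.1, DD_shift hn.2 μ⟩⟩

lemma DS_comeagre {S : Set ℕ} (hS : ∃ᶠ n in atTop, n ∈ S) : DS S ∈ residual ℝ := by
  have h1 : (⋂ m : ℕ, ⋃ (n : ℕ) (_ : m ≤ n ∧ n ∈ S), W n) ∈ residual ℝ := by
    rw [countable_iInter_mem]
    intro m
    refine residual_of_dense_open (isOpen_biUnion fun n _ => isOpen_W n) ?_
    rw [Metric.dense_iff]
    intro x r hr
    obtain ⟨N, hN⟩ := exists_nat_gt (1 / r)
    obtain ⟨n, hn, hnS⟩ := (frequently_atTop.1 hS) (max N m)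
    have hq : (0 : ℝ) < q n := by exact_mod_cast q_pos n
    have hQ : (0 : ℝ) < Q n := by exact_mod_cast Q_pos n
    have h1 := q_ge n
    have h2 : (N : ℝ) ≤ n := by exact_mod_cast (le_max_left _ _).trans hn
    have h3 : 1 < r * q n := by
      rw [div_lt_iff₀ hr] at hN
      nlinarith
    refine ⟨(round ((q n : ℝ) * x) : ℝ) / q n, ?_, ?_⟩
    · rw [Metric.mem_ball, Real.dist_eq]
      have h4 : (round ((q n : ℝ) * x) : ℝ) / q n - x =
        -((q n : ℝ) * x - round ((q n : ℝ) * x)) / q n := by field_simp; ring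
      rw [h4, abs_div, abs_neg, abs_of_pos hq, div_lt_iff₀ hq]
      have := abs_sub_round ((q n : ℝ) * x)
      linarith
    · rw [Set.mem_iUnion₂]
      refine ⟨n, ⟨(le_max_right _ _).trans hn, hnS⟩, round ((q n : ℝ) * x), ?_⟩
      have h5 : (q n : ℝ) * ((round ((q n : ℝ) * x) : ℝ) / q n) - round ((q n : ℝ) * x) = 0 := by
        field_simp; ring
      rw [h5, abs_zero]
      positivity
  refine Filter.mem_of_superset h1 fun x hx => ⟨1, ?_⟩
  rw [frequently_atTop]
  intro m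
  rw [Set.mem_iInter] at hx
  have := hx m
  rw [Set.mem_iUnion₂] at this
  obtain ⟨n, ⟨hn, hnS⟩, hW⟩ := this
  exact ⟨n, hn, hnS, W_sub n hW⟩

/-- Every analytic meagre set that contains `AS` fails to be invariant under the stabilizer
of `AS`. -/
theorem core3 {d : ℕ} (i0 : Fin d) (B : Set (Fin d → ℝ)) (hB : AnalyticSet B) (hm : IsMeagre B)
    (hA : AS d i0 ⊆ B) (hinv : ∀ x ∈ B, ∀ μ : Br →₀ ℤ, x + Pi.single i0 (hs μ) ∈ B) : False := by
  have hres : {x : Fin d → ℝ | IsMeagre {t : ℝ | x + t • (Pi.single i0 1 : Fin d → ℝ) ∈ B} ∧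
      ∃ᶠ n in atTop, ∀ i, x i ∈ W n} ∈ residual (Fin d → ℝ) :=
    (ku B hm (Pi.single i0 1)).and (all_W d)
  obtain ⟨x, hx1, hx2⟩ := (dense_of_mem_residual hres).nonempty
  set S : Set ℕ := {n | ∀ i, i ≠ i0 → x i ∈ W n} with hS
  have hSf : ∃ᶠ n in atTop, n ∈ S := hx2.mono fun n hn i _ => hn i
  -- the line
  have hup : ∀ t : ℝ, Function.update x i0 t = x + (t - x i0) • (Pi.single i0 1 : Fin d → ℝ) := by
    intro t
    ext i
    by_cases hi : i = i0
    · rw [hi, Function.update_self, Pi.add_apply, Pi.smul_apply, Pi.single_eq_same, smul_eq_mul]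
      ring
    · rw [Function.update_of_ne hi, Pi.add_apply, Pi.smul_apply, Pi.single_eq_of_ne hi,
        smul_zero, add_zero]
  have hcont : Continuous fun t : ℝ => Function.update x i0 t := by
    simp only [hup]
    fun_prop
  set T : Set ℝ := (fun t : ℝ => Function.update x i0 t) ⁻¹' B with hT
  have hTm : IsMeagre T := by
    have h1 : IsMeagre ((fun t : ℝ => t - x i0) ⁻¹' {t : ℝ | x + t • (Pi.single i0 1 : Fin d → ℝ) ∈ B}) :=
      hx1.preimage_of_isOpenMap (by fun_prop) (isOpenMap_sub_right (x i0))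
    refine h1.mono fun t ht => ?_
    rw [hT, Set.mem_preimage, hup] at ht
    exact ht
  have hTa : AnalyticSet T := hB.preimage hcont
  have hTinv : ∀ t, t ∉ T → ∀ μ : Br →₀ ℤ, t + hs μ ∉ T := by
    intro t ht μ h
    apply ht
    have h1 := hinv _ h (-μ)
    have e : Function.update x i0 (t + hs μ) + Pi.single i0 (hs (-μ)) = Function.update x i0 t := by
      ext i
      by_cases hi : i = i0
      · rw [hi, Pi.add_apply, Function.update_self, Function.update_self, Pi.single_eq_same,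
          hs_neg]
        ring
      · rw [Pi.add_apply, Function.update_of_ne hi, Function.update_of_ne hi,
          Pi.single_eq_of_ne hi, add_zero]
    rw [e] at h1
    exact h1
  have hco : (Tᶜ ∩ DS S)ᶜ = T ∪ (DS S)ᶜ := by
    rw [Set.compl_inter, compl_compl]
  obtain ⟨t, ⟨ht1, ht2⟩, ht3⟩ := core2 (Tᶜ ∩ DS S) (by
    rw [hco, Set.union_eq_iUnion]
    refine AnalyticSet.iUnion fun b => ?_
    cases b
    · exact ((DS_meas S).compl).analyticSet
    · exact hTa) (by
    rw [hco]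
    have h1 : IsMeagre (DS S)ᶜ := by
      rw [IsMeagre, compl_compl]
      exact DS_comeagre hSf
    exact hTm.union h1) (by
    rintro t ⟨ht1, ht2⟩ a
    rw [← hs_single]
    exact ⟨hTinv t ht1 _, DS_shift ht2 _⟩)
  apply ht1
  rw [hT, Set.mem_preimage]
  apply hA
  obtain ⟨k, hk⟩ := ht2
  refine ⟨?_, k, hk.mono fun n hn => ⟨?_, fun i hi => ?_⟩⟩
  · rw [Function.update_self]
    exact ht3
  · rw [Function.update_self]
    exact hn.2
  · rw [Function.update_of_ne hi]
    exact hn.1 i hi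

end Pool.Agent.Y904.BHX
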