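import Pool.Agent.Y904.BHX.Dim

/-!
# The sets `DD k n`, invariant under the group generated by the perfect set
-/

set_option autoImplicit false

namespace Pool.Agent.Y904.BHX

open Filter MeasureTheory Metric Pool.Agent.H341Q.BH Topology
open scoped ENNReal NNReal Nat

lemma E_zero (n : ℕ) : E n 0 = 0 := by
  unfold E
  exact Finsupp.sum_zero_index

lemma E_add (n : ℕ) (κ μ : Br →₀ ℤ) : E n (κ + μ) = E n κ + E n μ := by
  unfold E
  exact Finsupp.sum_add_index' (fun a => by simp) (fun a k k' => by ring)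

lemma E_single (n : ℕ) (a : Br) (c : ℤ) : E n (Finsupp.single a c) = c * (e n a : ℤ) := by
  unfold E
  rw [Finsupp.sum_single_index (by simp)]

lemma wt_zero : wt 0 = 0 := by
  unfold wt
  exact Finsupp.sum_zero_index

lemma wt_nonneg (κ : Br →₀ ℤ) : 0 ≤ wt κ := Finset.sum_nonneg fun _ _ => abs_nonneg _

lemma wt_eq (κ : Br →₀ ℤ) (s : Finset Br) (hs : κ.support ⊆ s) : wt κ = ∑ a ∈ s, |κ a| := by
  unfold wt
  exact Finsupp.sum_of_support_subset _ hs _ (fun _ _ => abs_zero)

lemma wt_add_le (κ μ : Br →₀ ℤ) : wt (κ + μ) ≤ wt κ + wt μ := by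
  classical
  rw [wt_eq (κ + μ) (κ.support ∪ μ.support) Finsupp.support_add,
    wt_eq κ (κ.support ∪ μ.support) Finset.subset_union_left,
    wt_eq μ (κ.support ∪ μ.support) Finset.subset_union_right, ← Finset.sum_add_distrib]
  exact Finset.sum_le_sum fun a _ => abs_add_le _ _

lemma wt_single (a : Br) (c : ℤ) : wt (Finsupp.single a c) = |c| := by
  unfold wt
  rw [Finsupp.sum_single_index (by simp)]

lemma wt_pos {κ : Br →₀ ℤ} {a : Br} (h : κ a ≠ 0) : 0 < wt κ := by
  have h1 : a ∈ κ.support := Finsupp.mem_support_iff.2 h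
  unfold wt Finsupp.sum
  exact Finset.sum_pos' (fun _ _ => abs_nonneg _) ⟨a, h1, abs_pos.2 h⟩

lemma abs_sub_sign {c : ℤ} (h : c ≠ 0) : |c - c.sign| = |c| - 1 := by
  rcases lt_or_gt_of_ne h with h1 | h1
  · rw [Int.sign_eq_neg_one_of_neg h1, abs_of_neg h1, abs_of_nonpos (by omega)]
    ring
  · rw [Int.sign_eq_one_of_pos h1, abs_of_pos h1, abs_of_nonneg (by omega)]

/-- the digits of the combinations of bounded weight -/
theorem exists_F (n k : ℕ) : ∃ F : Finset ℤ, F.card ≤ (2 * (n + 2)! + 1) ^ k ∧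
    ∀ κ : Br →₀ ℤ, wt κ ≤ k → E n κ ∈ F := by
  classical
  set T : Finset ℤ := insert 0 (((Finset.range (n + 2)!).image fun i => ((B n ^ i : ℕ) : ℤ)) ∪
    ((Finset.range (n + 2)!).image fun i => -((B n ^ i : ℕ) : ℤ))) with hTdef
  have hT : T.card ≤ 2 * (n + 2)! + 1 := by
    refine (Finset.card_insert_le _ _).trans ?_
    refine Nat.succ_le_succ ((Finset.card_union_le _ _).trans ?_)
    have h1 := Finset.card_image_le (s := Finset.range (n + 2)!) (f := fun i => ((B n ^ i : ℕ) : ℤ))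
    have h2 := Finset.card_image_le (s := Finset.range (n + 2)!) (f := fun i => -((B n ^ i : ℕ) : ℤ))
    rw [Finset.card_range] at h1 h2
    omega
  have hT1 : ∀ (a : Br) (c : ℤ), c ≠ 0 → c.sign * (e n a : ℤ) ∈ T := by
    intro a c hc
    rw [hTdef, Finset.mem_insert, Finset.mem_union]
    right
    rcases lt_or_gt_of_ne hc with h1 | h1
    · right
      rw [Int.sign_eq_neg_one_of_neg h1, Finset.mem_image]
      refine ⟨idx n a, Finset.mem_range.2 (idx_lt n a), ?_⟩
      unfold e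
      ring
    · left
      rw [Int.sign_eq_one_of_pos h1, Finset.mem_image]
      refine ⟨idx n a, Finset.mem_range.2 (idx_lt n a), ?_⟩
      unfold e
      ring
  induction k with
  | zero =>
    refine ⟨{0}, by simp, fun κ hκ => ?_⟩
    have h0 : κ = 0 := by
      ext a
      by_contra h
      have := wt_pos (κ := κ) (a := a) h
      have h2 : wt κ ≤ 0 := by exact_mod_cast hκ
      omega
    rw [h0, E_zero]
    exact Finset.mem_singleton_self 0
  | succ k ih =>
    obtain ⟨F, hF1, hF2⟩ := ih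
    refine ⟨(F ×ˢ T).image (fun x => x.1 + x.2), ?_, fun κ hκ => ?_⟩
    · refine Finset.card_image_le.trans ?_
      rw [Finset.card_product, pow_succ]
      exact Nat.mul_le_mul hF1 hT
    · rw [Finset.mem_image]
      by_cases h0 : κ = 0
      · refine ⟨(0, 0), ?_, by rw [h0, E_zero]; rfl⟩
        rw [Finset.mem_product]
        refine ⟨?_, Finset.mem_insert_self _ _⟩
        have := hF2 0 (by rw [wt_zero]; positivity)
        rwa [E_zero] at this
      · obtain ⟨a, ha⟩ := Finsupp.support_nonempty_iff.2 h0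
        have ha' : κ a ≠ 0 := Finsupp.mem_support_iff.1 ha
        set κ' : Br →₀ ℤ := κ + Finsupp.single a (-(κ a).sign) with hκ'
        have hwt : wt κ' = wt κ - 1 := by
          rw [wt_eq κ' κ.support (by
            intro b hb
            by_contra hb2
            have h1 : κ b = 0 := Finsupp.notMem_support_iff.1 hb2
            have h2 : a ≠ b := by
              rintro rfl
              exact hb2 ha
            apply Finsupp.mem_support_iff.1 hb
            rw [hκ', Finsupp.add_apply, h1, Finsupp.single_eq_of_ne h2.symm, add_zero]),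
            wt_eq κ κ.support subset_rfl, ← Finset.add_sum_erase _ _ ha,
            ← Finset.add_sum_erase _ _ ha]
          have h1 : |κ' a| = |κ a| - 1 := by
            rw [hκ', Finsupp.add_apply, Finsupp.single_eq_same, ← sub_eq_add_neg,
              abs_sub_sign ha']
          have h2 : ∑ b ∈ κ.support.erase a, |κ' b| = ∑ b ∈ κ.support.erase a, |κ b| := by
            refine Finset.sum_congr rfl fun b hb => ?_
            have hb2 : b ≠ a := (Finset.mem_erase.1 hb).1
            rw [hκ', Finsupp.add_apply, Finsupp.single_eq_of_ne hb2, add_zero]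
          rw [h1, h2]
          ring
        refine ⟨(E n κ', (κ a).sign * (e n a : ℤ)), ?_, ?_⟩
        · rw [Finset.mem_product]
          refine ⟨hF2 κ' ?_, hT1 a _ ha'⟩
          rw [hwt]
          push_cast at hκ
          linarith
        · show E n κ' + (κ a).sign * (e n a : ℤ) = E n κ
          rw [hκ', E_add, E_single]
          ring

/-- the points near the combinations of weight `≤ k` at level `n` -/
def DD (k n : ℕ) : Set ℝ := {x | ∃ m : ℤ, ∃ κ : Br →₀ ℤ, wt κ ≤ k ∧
  |(q (n + 1) : ℝ) * x - ((m * Q n + E n κ : ℤ) : ℝ)| ≤ k}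

lemma q_succ (n : ℕ) : (q (n + 1) : ℝ) = q n * Q n := by
  simp only [q]
  push_cast
  rfl

lemma near {x c : ℝ} {n : ℕ} {m : ℤ} (h : |(q n : ℝ) * x - m| ≤ c / Q n) :
    |(q (n + 1) : ℝ) * x - ((m * Q n + E n 0 : ℤ) : ℝ)| ≤ c := by
  have hQ : (0 : ℝ) < Q n := by exact_mod_cast Q_pos n
  rw [E_zero]
  have e1 : (q (n + 1) : ℝ) * x - ((m * Q n + 0 : ℤ) : ℝ) = ((q n : ℝ) * x - m) * Q n := by
    rw [q_succ]
    push_cast
    ring
  rw [e1, abs_mul, abs_of_pos hQ]
  rwa [le_div_iff₀ hQ] at h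

lemma V_sub (C n : ℕ) : V C n ⊆ DD C n := by
  rintro x ⟨m, hm⟩
  exact ⟨m, 0, by rw [wt_zero]; positivity, near hm⟩

lemma W_sub (n : ℕ) : W n ⊆ DD 1 n := by
  rintro x ⟨m, hm⟩
  have hQ : (0 : ℝ) < Q n := by exact_mod_cast Q_pos n
  refine ⟨m, 0, by rw [wt_zero]; positivity, ?_⟩
  have h1 : |(q n : ℝ) * x - m| ≤ 1 / Q n := by
    refine hm.le.trans ?_
    exact one_div_le_one_div_of_le hQ (by linarith)
  have := near h1
  rwa [Nat.cast_one]

lemma DD_mono {k l n : ℕ} (h : k ≤ l) : DD k n ⊆ DD l n := by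
  rintro x ⟨m, κ, h1, h2⟩
  exact ⟨m, κ, h1.trans (by exact_mod_cast h), h2.trans (by exact_mod_cast h)⟩

lemma DD_shift {k n : ℕ} {x : ℝ} (hx : x ∈ DD k n) (μ : Br →₀ ℤ) :
    x + hs μ ∈ DD (k + (wt μ).toNat) n := by
  obtain ⟨m, κ, h1, h2⟩ := hx
  obtain ⟨z, hz⟩ := hs_digit n μ
  have hw : ((wt μ).toNat : ℤ) = wt μ := Int.toNat_of_nonneg (wt_nonneg μ)
  have hwR : ((wt μ).toNat : ℝ) = (wt μ : ℝ) := by exact_mod_cast congrArg (Int.cast (R := ℝ)) hw
  have hw0 : (0 : ℝ) ≤ (wt μ : ℝ) := by exact_mod_cast wt_nonneg μ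
  refine ⟨m + z, κ + μ, ?_, ?_⟩
  · refine (wt_add_le κ μ).trans ?_
    push_cast
    rw [hw]
    linarith
  · have hQ : (0 : ℝ) < Q n := by exact_mod_cast Q_pos n
    have hq : (0 : ℝ) < q n := by exact_mod_cast q_pos n
    have hq1 : (0 : ℝ) < q (n + 1) := by exact_mod_cast q_pos (n + 1)
    have hC : (1 : ℝ) ≤ Cc (n + 1) := by exact_mod_cast Cc_pos (n + 1)
    have h3 : |(q (n + 1) : ℝ) * hs μ - ((z * Q n + E n μ : ℤ) : ℝ)| ≤ wt μ := by
      have e1 : (q (n + 1) : ℝ) * hs μ - ((z * Q n + E n μ : ℤ) : ℝ) =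
          ((q n : ℝ) * hs μ - z - (E n μ : ℝ) / Q n) * Q n := by
        rw [q_succ]
        push_cast
        field_simp
        ring
      rw [e1, abs_mul, abs_of_pos hQ]
      calc |(q n : ℝ) * hs μ - z - (E n μ : ℝ) / Q n| * Q n
          ≤ (wt μ * (q n * dl (n + 1))) * Q n := mul_le_mul_of_nonneg_right hz hQ.le
        _ = wt μ * (1 / Cc (n + 1)) := by
          unfold dl
          rw [q_succ]
          field_simp
        _ ≤ wt μ * 1 := by
          apply mul_le_mul_of_nonneg_left _ hw0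
          rw [div_le_one (by linarith)]
          exact hC
        _ = wt μ := mul_one _
    have e2 : (q (n + 1) : ℝ) * (x + hs μ) - (((m + z) * Q n + E n (κ + μ) : ℤ) : ℝ) =
        ((q (n + 1) : ℝ) * x - ((m * Q n + E n κ : ℤ) : ℝ)) +
          ((q (n + 1) : ℝ) * hs μ - ((z * Q n + E n μ : ℤ) : ℝ)) := by
      rw [E_add]
      push_cast
      ring
    rw [e2]
    refine (abs_add_le _ _).trans ?_
    push_cast
    rw [hwR]
    exact add_le_add (by push_cast at h2; exact h2) (by push_cast at h3; exact h3)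

/-- dimension zero -/
theorem dim_DD (d k : ℕ) : dimH {x : Fin d → ℝ | ∃ᶠ n in atTop, ∀ i, x i ∈ DD k n} = 0 := by
  classical
  have hsub : {x : Fin d → ℝ | ∃ᶠ n in atTop, ∀ i, x i ∈ DD k n} ⊆
      ⋃ M : ℕ, {x : Fin d → ℝ | (∀ i, |x i| ≤ M) ∧ ∃ᶠ n in atTop, ∀ i, x i ∈ DD k n} := by
    intro x hx
    obtain ⟨M, hM⟩ := exists_nat_ge ‖x‖
    rw [Set.mem_iUnion]
    refine ⟨M, fun i => ?_, hx⟩
    have := norm_le_pi_norm x i
    rw [Real.norm_eq_abs] at this
    exact this.trans hM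
  refine le_antisymm ((dimH_mono hsub).trans ?_) bot_le
  rw [dimH_iUnion]
  refine iSup_le fun M => le_of_eq ?_
  choose F hF1 hF2 using fun n => exists_F n k
  set P : ℕ → Finset ℝ := fun n =>
    ((Finset.Icc (-((M * q n + 2 * k : ℕ) : ℤ)) ((M * q n + 2 * k : ℕ) : ℤ)) ×ˢ F n).image
      (fun t => ((t.1 * Q n + t.2 : ℤ) : ℝ) / q (n + 1)) with hP
  have hPc : ∀ n, ((P n).card : ℝ) ≤
      (2 * M + 4 * k + 1) * (q n * ((2 * (n + 2)! + 1 : ℕ) : ℝ) ^ k) := by
    intro n
    have h1 : (P n).card ≤ (2 * (M * q n + 2 * k) + 1) * (2 * (n + 2)! + 1) ^ k := by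
      refine Finset.card_image_le.trans ?_
      rw [Finset.card_product]
      refine Nat.mul_le_mul ?_ (hF1 n)
      rw [Int.card_Icc]
      omega
    have h2 : (2 * (M * q n + 2 * k) + 1 : ℝ) ≤ (2 * M + 4 * k + 1) * q n := by
      have hq1 : (1 : ℝ) ≤ q n := by exact_mod_cast q_pos n
      have hk : (0 : ℝ) ≤ k := Nat.cast_nonneg k
      nlinarith
    calc ((P n).card : ℝ) ≤ (((2 * (M * q n + 2 * k) + 1) * (2 * (n + 2)! + 1) ^ k : ℕ) : ℝ) := by
          exact_mod_cast h1
      _ = (2 * (M * q n + 2 * k) + 1 : ℝ) * ((2 * (n + 2)! + 1 : ℕ) : ℝ) ^ k := by push_cast; ring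
      _ ≤ ((2 * M + 4 * k + 1) * q n) * ((2 * (n + 2)! + 1 : ℕ) : ℝ) ^ k :=
          mul_le_mul_of_nonneg_right h2 (by positivity)
      _ = _ := by ring
  have hq0 : ∀ n, (0 : ℝ) < q n := fun n => by exact_mod_cast q_pos n
  have hqm : ∀ {m n : ℕ}, m ≤ n → (q m : ℝ) ≤ q n := fun {m n} h => by
    exact_mod_cast Nat.le_of_dvd (q_pos n) (q_dvd h)
  refine dim0 _ (fun n => Fintype.piFinset fun _ : Fin d => P n) (fun n => (k : ℝ) / q (n + 1))
    ?_ ?_ ?_ ?_
  · intro m n h
    exact div_le_div_of_nonneg_left (Nat.cast_nonneg k) (hq0 _) (hqm (by omega))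
  · have h1 : Tendsto (fun n : ℕ => (q (n + 1) : ℝ)) atTop atTop := by
      refine tendsto_atTop_mono (fun n => ?_) tendsto_natCast_atTop_atTop
      have := q_ge (n + 1)
      push_cast at this
      linarith
    exact tendsto_const_nhds.div_atTop h1
  · rintro x ⟨hx1, hx2⟩
    refine hx2.mono fun n hn => ?_
    choose m κ h1 h2 using hn
    refine ⟨fun i => ((m i * Q n + E n (κ i) : ℤ) : ℝ) / q (n + 1), ?_, ?_⟩
    · rw [Fintype.mem_piFinset]
      intro i
      rw [hP, Finset.mem_image]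
      refine ⟨(m i, E n (κ i)), ?_, rfl⟩
      rw [Finset.mem_product]
      refine ⟨?_, hF2 n (κ i) (h1 i)⟩
      have hQ : (0 : ℝ) < Q n := by exact_mod_cast Q_pos n
      have hDQ : (D n : ℝ) ≤ Q n := by
        have : D n ≤ Q n := by
          unfold Q
          have := Cc_pos n
          nlinarith [D_pos n]
        exact_mod_cast this
      have hQ1 : (1 : ℝ) ≤ Q n := by exact_mod_cast Q_pos n
      have hE : |(E n (κ i) : ℝ)| ≤ k * Q n := by
        have h3 := abs_E_le n (κ i)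
        have h4 : (|E n (κ i)| : ℤ) ≤ k * D n :=
          h3.trans (mul_le_mul_of_nonneg_right (h1 i) (by positivity))
        have h5 : |(E n (κ i) : ℝ)| ≤ k * D n := by exact_mod_cast h4
        exact h5.trans (mul_le_mul_of_nonneg_left hDQ (Nat.cast_nonneg k))
      have h6 := h2 i
      have h7 : |(m i : ℝ) * Q n| ≤ (M * q n + 2 * k) * Q n := by
        have e1 : (m i : ℝ) * Q n = (q (n + 1) : ℝ) * x i - E n (κ i) -
            ((q (n + 1) : ℝ) * x i - ((m i * Q n + E n (κ i) : ℤ) : ℝ)) := by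
          push_cast
          ring
        rw [e1]
        have h8 : |(q (n + 1) : ℝ) * x i| ≤ q n * Q n * M := by
          rw [abs_mul, abs_of_pos (hq0 _), q_succ]
          exact mul_le_mul_of_nonneg_left (hx1 i) (by positivity)
        have h9 := abs_sub ((q (n + 1) : ℝ) * x i - E n (κ i))
          ((q (n + 1) : ℝ) * x i - ((m i * Q n + E n (κ i) : ℤ) : ℝ))
        have h10 := abs_sub ((q (n + 1) : ℝ) * x i) (E n (κ i) : ℝ)
        have hk : (k : ℝ) ≤ k * Q n := le_mul_of_one_le_right (Nat.cast_nonneg k) hQ1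
        nlinarith
      rw [abs_mul, abs_of_pos hQ] at h7
      have h8 : |(m i : ℝ)| ≤ M * q n + 2 * k := le_of_mul_le_mul_right h7 hQ
      have h9 : |m i| ≤ ((M * q n + 2 * k : ℕ) : ℤ) := by exact_mod_cast h8
      rw [Finset.mem_Icc]
      exact abs_le.1 h9
    · rw [dist_pi_le_iff (by positivity)]
      intro i
      rw [Real.dist_eq]
      have e1 : x i - ((m i * Q n + E n (κ i) : ℤ) : ℝ) / q (n + 1) =
          ((q (n + 1) : ℝ) * x i - ((m i * Q n + E n (κ i) : ℤ) : ℝ)) / q (n + 1) := by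
        have := (hq0 (n + 1)).ne'
        field_simp
      rw [e1, abs_div, abs_of_pos (hq0 (n + 1))]
      exact div_le_div_of_nonneg_right (h2 i) (hq0 (n + 1)).le
  · intro δ hδ
    refine Summable.of_nonneg_of_le (fun n => ?_) (fun n => ?_)
      (summ d (k * d) δ hδ ((2 * M + 4 * k + 1) ^ d) k (by positivity) (Nat.cast_nonneg k))
    · have := hq0 (n + 1)
      positivity
    · have := hq0 (n + 1)
      refine mul_le_mul_of_nonneg_right ?_ (by positivity)
      rw [Fintype.card_piFinset, Finset.prod_const, Finset.card_univ, Fintype.card_fin]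
      push_cast
      calc ((P n).card : ℝ) ^ d ≤
          ((2 * M + 4 * k + 1) * (q n * ((2 * (n + 2)! + 1 : ℕ) : ℝ) ^ k)) ^ d :=
            pow_le_pow_left₀ (Nat.cast_nonneg _) (hPc n) d
        _ = _ := by
            rw [mul_pow, mul_pow, ← pow_mul]
            push_cast
            ring

end Pool.Agent.Y904.BHX
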