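import Pool.Agent.H341Q.BHNull

/-!
# Sets of Hausdorff dimension zero given by approximations with the denominators `q n`
-/

set_option autoImplicit false

namespace Pool.Agent.Y904.BHX

open Filter MeasureTheory Metric Pool.Agent.H341Q.BH Topology
open scoped ENNReal NNReal Nat

lemma ediam_cb {X : Type} [MetricSpace X] (x : X) (r : ℝ) :
    Metric.ediam (closedBall x r) ≤ ENNReal.ofReal (2 * r) := by
  refine Metric.ediam_le fun a ha b hb => ?_
  rw [edist_dist]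
  apply ENNReal.ofReal_le_ofReal
  rw [mem_closedBall] at ha hb
  have := dist_triangle_right a b x
  linarith

/-- a limit superior of small finite families of balls has dimension zero -/
theorem dim0 {X : Type} [MetricSpace X] (s : Set X) (c : ℕ → Finset X) (r : ℕ → ℝ)
    (hr : Antitone r) (hr1 : Tendsto r atTop (𝓝 0))
    (hs : ∀ x ∈ s, ∃ᶠ n in atTop, ∃ p ∈ c n, dist x p ≤ r n)
    (hsum : ∀ δ : ℝ, 0 < δ → Summable fun n => ((c n).card : ℝ) * (2 * r n) ^ δ) :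
    dimH s = 0 := by
  borelize X
  have hr0 : ∀ n, 0 ≤ r n := fun n => hr.le_of_tendsto hr1 n
  have key : ∀ δ : ℝ≥0, 0 < δ → dimH s ≤ δ := by
    intro δ hδ
    have hδ' : (0 : ℝ) < δ := hδ
    apply dimH_le_of_hausdorffMeasure_ne_top
    have h1 := Measure.hausdorffMeasure_le_liminf_tsum (X := X) (ι := fun N : ℕ => Σ n : ℕ, c (n + N))
      (δ : ℝ) s (l := atTop) (fun N => ENNReal.ofReal (2 * r N)) (by
        have := ENNReal.tendsto_ofReal (hr1.const_mul 2)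
        simpa using this)
      (fun N i => closedBall (i.2 : X) (r (i.1 + N))) (Eventually.of_forall fun N i => by
        refine (ediam_cb _ _).trans ?_
        exact ENNReal.ofReal_le_ofReal (mul_le_mul_of_nonneg_left (hr (Nat.le_add_left _ _))
          (by norm_num)))
      (Eventually.of_forall fun N x hx => by
        obtain ⟨n, hn, p, hp, hd⟩ := (frequently_atTop.1 (hs x hx)) N
        rw [Set.mem_iUnion]
        obtain ⟨m, rfl⟩ := Nat.exists_eq_add_of_le' hn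
        exact ⟨⟨m, ⟨p, hp⟩⟩, hd⟩)
    have h2 : ∀ N : ℕ, ∑' i : (Σ n : ℕ, c (n + N)),
        Metric.ediam (closedBall (i.2 : X) (r (i.1 + N))) ^ (δ : ℝ) ≤
        ∑' n : ℕ, (fun n => ENNReal.ofReal (((c n).card : ℝ) * (2 * r n) ^ (δ : ℝ))) (n + N) := by
      intro N
      rw [ENNReal.tsum_sigma']
      refine ENNReal.tsum_le_tsum fun n => ?_
      rw [tsum_fintype]
      calc ∑ b : c (n + N), Metric.ediam (closedBall (b : X) (r (n + N))) ^ (δ : ℝ)
          ≤ ∑ _b : c (n + N), ENNReal.ofReal ((2 * r (n + N)) ^ (δ : ℝ)) := by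
            refine Finset.sum_le_sum fun b _ => ?_
            rw [← ENNReal.ofReal_rpow_of_nonneg (by have := hr0 (n + N); positivity) hδ'.le]
            exact ENNReal.rpow_le_rpow (ediam_cb _ _) hδ'.le
        _ = ENNReal.ofReal (((c (n + N)).card : ℝ) * (2 * r (n + N)) ^ (δ : ℝ)) := by
            rw [Finset.sum_const, Finset.card_univ, Fintype.card_coe, nsmul_eq_mul,
              ENNReal.ofReal_mul (by positivity), ENNReal.ofReal_natCast]
    have h3 : ∑' n : ℕ, ENNReal.ofReal (((c n).card : ℝ) * (2 * r n) ^ (δ : ℝ)) ≠ ∞ :=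
      (hsum δ hδ').tsum_ofReal_ne_top
    have h4 := ENNReal.tendsto_sum_nat_add _ h3
    have h5 : μH[(δ : ℝ)] s ≤ 0 := by
      refine h1.trans ?_
      refine (liminf_le_liminf (Eventually.of_forall h2)).trans ?_
      exact h4.liminf_eq.le
    exact ne_top_of_le_ne_top ENNReal.zero_ne_top h5
  refine le_antisymm ?_ bot_le
  refine ENNReal.le_of_forall_pos_le_add fun ε hε _ => ?_
  rw [zero_add]
  exact key ε hε

/-! ### Growth of `q` -/

lemma B_ge (n : ℕ) : 5 ≤ B n := by unfold B; omega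

lemma q_le (n : ℕ) : q n ≤ B n ^ (9 * (n + 1)!) := by
  induction n with
  | zero =>
    simp only [q]
    exact Nat.one_le_pow _ _ (B_pos 0)
  | succ n ih =>
    have h1 : 2 * Cc n ≤ B n ^ 7 := by
      have h2 : 2 * Cc n ≤ 15625 * B n := by unfold Cc B; omega
      have h3 : 5 ^ 6 ≤ B n ^ 6 := Nat.pow_le_pow_left (B_ge n) 6
      calc 2 * Cc n ≤ 15625 * B n := h2
        _ ≤ B n ^ 6 * B n := Nat.mul_le_mul_right _ (by norm_num at h3 ⊢; exact h3)
        _ = B n ^ 7 := by ring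
    have h4 : (n + 1 + 1)! = (n + 2) * (n + 1)! := Nat.factorial_succ (n + 1)
    have h5 : 9 * (n + 1)! + 7 + (n + 2)! ≤ 9 * (n + 1 + 1)! := by
      have h6 : (n + 2)! = (n + 2) * (n + 1)! := Nat.factorial_succ (n + 1)
      have h7 : 1 ≤ (n + 1)! := Nat.factorial_pos _
      rw [h4]
      nlinarith
    calc q (n + 1) = q n * (2 * Cc n * D n) := rfl
      _ ≤ B n ^ (9 * (n + 1)!) * (B n ^ 7 * B n ^ (n + 2)!) :=
        Nat.mul_le_mul ih (Nat.mul_le_mul h1 le_rfl)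
      _ = B n ^ (9 * (n + 1)! + 7 + (n + 2)!) := by rw [pow_add, pow_add]; ring
      _ ≤ B n ^ (9 * (n + 1 + 1)!) := Nat.pow_le_pow_right (B_pos n) h5
      _ ≤ B (n + 1) ^ (9 * (n + 1 + 1)!) := Nat.pow_le_pow_left (by unfold B; omega) _

lemma fac_le (n : ℕ) : 2 * (n + 2)! + 1 ≤ B n ^ (3 * (n + 1)!) := by
  have h6 : (n + 2)! = (n + 2) * (n + 1)! := Nat.factorial_succ (n + 1)
  have h7 : 1 ≤ (n + 1)! := Nat.factorial_pos _
  have h8 : (n + 1)! ≤ B n ^ (n + 1)! := by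
    calc (n + 1)! ≤ 2 ^ (n + 1)! := Nat.lt_two_pow_self.le
      _ ≤ B n ^ (n + 1)! := Nat.pow_le_pow_left (by have := B_ge n; omega) _
  have h9 : B n ^ 2 ≤ B n ^ (2 * (n + 1)!) := Nat.pow_le_pow_right (B_pos n) (by omega)
  have h10 : 3 * (n + 2) ≤ B n ^ 2 := by
    unfold B
    nlinarith
  calc 2 * (n + 2)! + 1 ≤ 3 * (n + 2) * (n + 1)! := by rw [h6]; nlinarith
    _ ≤ B n ^ 2 * B n ^ (n + 1)! := Nat.mul_le_mul h10 h8
    _ ≤ B n ^ (2 * (n + 1)!) * B n ^ (n + 1)! := Nat.mul_le_mul_right _ h9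
    _ = B n ^ (3 * (n + 1)!) := by rw [← pow_add]; congr 1; ring

lemma le_q (n : ℕ) : B n ^ ((n + 2) * (n + 1)!) ≤ q (n + 1) := by
  have h6 : (n + 2)! = (n + 2) * (n + 1)! := Nat.factorial_succ (n + 1)
  rw [← h6]
  calc B n ^ (n + 2)! = 1 * (1 * D n) := by rw [one_mul, one_mul]; rfl
    _ ≤ q n * (2 * Cc n * D n) :=
      Nat.mul_le_mul (q_pos n) (Nat.mul_le_mul_right _ (by have := Cc_pos n; omega))
    _ = q (n + 1) := rfl

theorem growth (a b : ℕ) (δ : ℝ) (hδ : 0 < δ) : ∀ᶠ n : ℕ in atTop,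
    (q n : ℝ) ^ a * ((2 * (n + 2)! + 1 : ℕ) : ℝ) ^ b * (1 / (q (n + 1) : ℝ)) ^ δ ≤ (1 / 2) ^ n := by
  obtain ⟨N, hN⟩ := exists_nat_gt ((9 * a + 3 * b + 1 : ℕ) / δ)
  filter_upwards [eventually_ge_atTop N] with n hn
  have hB1 : (1 : ℝ) ≤ B n := by exact_mod_cast B_pos n
  have hB0 : (0 : ℝ) < B n := by linarith
  have hq1 : (0 : ℝ) < q (n + 1) := by exact_mod_cast q_pos (n + 1)
  have h1 : (q n : ℝ) ^ a * ((2 * (n + 2)! + 1 : ℕ) : ℝ) ^ b * 2 ^ n ≤
      (B n : ℝ) ^ ((9 * a + 3 * b + 1) * (n + 1)!) := by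
    have e1 : (q n : ℝ) ≤ (B n : ℝ) ^ (9 * (n + 1)!) := by exact_mod_cast q_le n
    have e2 : ((2 * (n + 2)! + 1 : ℕ) : ℝ) ≤ (B n : ℝ) ^ (3 * (n + 1)!) := by
      exact_mod_cast fac_le n
    have e3 : (2 : ℝ) ^ n ≤ (B n : ℝ) ^ (n + 1)! := by
      calc (2 : ℝ) ^ n ≤ 2 ^ (n + 1)! := pow_le_pow_right₀ (by norm_num) (by
            have := Nat.self_le_factorial (n + 1); omega)
        _ ≤ (B n : ℝ) ^ (n + 1)! := pow_le_pow_left₀ (by norm_num) (by
            have : (5 : ℝ) ≤ B n := by exact_mod_cast B_ge n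
            linarith) _
    calc (q n : ℝ) ^ a * ((2 * (n + 2)! + 1 : ℕ) : ℝ) ^ b * 2 ^ n
        ≤ ((B n : ℝ) ^ (9 * (n + 1)!)) ^ a * ((B n : ℝ) ^ (3 * (n + 1)!)) ^ b *
          (B n : ℝ) ^ (n + 1)! := by gcongr
      _ = _ := by
        rw [← pow_mul, ← pow_mul, ← pow_add, ← pow_add]
        congr 1
        ring
  have h2 : (B n : ℝ) ^ ((9 * a + 3 * b + 1) * (n + 1)!) ≤ (q (n + 1) : ℝ) ^ δ := by
    have e1 : (B n : ℝ) ^ ((n + 2) * (n + 1)!) ≤ q (n + 1) := by exact_mod_cast le_q n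
    have e2 : ((9 * a + 3 * b + 1 : ℕ) : ℝ) ≤ δ * (n + 2 : ℕ) := by
      rw [div_lt_iff₀ hδ] at hN
      have : (N : ℝ) ≤ (n + 2 : ℕ) := by exact_mod_cast (by omega : N ≤ n + 2)
      nlinarith
    calc (B n : ℝ) ^ ((9 * a + 3 * b + 1) * (n + 1)!)
        = (B n : ℝ) ^ ((((9 * a + 3 * b + 1) * (n + 1)! : ℕ)) : ℝ) := (Real.rpow_natCast _ _).symm
      _ ≤ (B n : ℝ) ^ ((((n + 2) * (n + 1)! : ℕ) : ℝ) * δ) := by
          apply Real.rpow_le_rpow_of_exponent_le hB1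
          push_cast at e2 ⊢
          have h0 : (0 : ℝ) ≤ ((n + 1)! : ℝ) := by positivity
          nlinarith
      _ = ((B n : ℝ) ^ ((n + 2) * (n + 1)!)) ^ δ := by
          rw [Real.rpow_mul hB0.le, Real.rpow_natCast]
      _ ≤ (q (n + 1) : ℝ) ^ δ := Real.rpow_le_rpow (by positivity) e1 hδ.le
  have h3 : 0 < (q (n + 1) : ℝ) ^ δ := Real.rpow_pos_of_pos hq1 δ
  rw [Real.div_rpow zero_le_one hq1.le, Real.one_rpow, one_div_pow, mul_one_div,
    div_le_div_iff₀ h3 (by positivity), one_mul]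
  exact h1.trans h2

theorem summ (a b : ℕ) (δ : ℝ) (hδ : 0 < δ) (c₁ c₂ : ℝ) (h1 : 0 ≤ c₁) (h2 : 0 ≤ c₂) :
    Summable fun n : ℕ => (c₁ * ((q n : ℝ) ^ a * ((2 * (n + 2)! + 1 : ℕ) : ℝ) ^ b)) *
      (2 * (c₂ / q (n + 1))) ^ δ := by
  have hs : Summable fun n : ℕ => (c₁ * (2 * c₂) ^ δ) * (1 / 2 : ℝ) ^ n :=
    (summable_geometric_of_lt_one (by norm_num) (by norm_num)).mul_left _
  refine summable_of_isBigO_nat hs ?_
  refine Asymptotics.IsBigO.of_bound 1 ?_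
  filter_upwards [growth a b δ hδ] with n hn
  have hq1 : (0 : ℝ) < q (n + 1) := by exact_mod_cast q_pos (n + 1)
  have e1 : (2 * (c₂ / q (n + 1))) ^ δ = (2 * c₂) ^ δ * (1 / (q (n + 1) : ℝ)) ^ δ := by
    rw [← Real.mul_rpow (by positivity) (by positivity)]
    congr 1
    ring
  have e2 : 0 ≤ (1 / (q (n + 1) : ℝ)) ^ δ := by positivity
  have e3 : 0 ≤ (2 * c₂) ^ δ := by positivity
  rw [Real.norm_of_nonneg (by positivity), Real.norm_of_nonneg (by positivity), one_mul, e1]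
  calc c₁ * ((q n : ℝ) ^ a * ((2 * (n + 2)! + 1 : ℕ) : ℝ) ^ b) *
        ((2 * c₂) ^ δ * (1 / (q (n + 1) : ℝ)) ^ δ)
      = (c₁ * (2 * c₂) ^ δ) * ((q n : ℝ) ^ a * ((2 * (n + 2)! + 1 : ℕ) : ℝ) ^ b *
        (1 / (q (n + 1) : ℝ)) ^ δ) := by ring
    _ ≤ (c₁ * (2 * c₂) ^ δ) * (1 / 2) ^ n := mul_le_mul_of_nonneg_left hn (by positivity)

end Pool.Agent.Y904.BHX
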