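import Pool.Agent.Y904.BHX.DDs
import Pool.Agent.H341Q.BHFinal

/-!
# A nonmeagre subgroup of `ℝ^d` of Hausdorff dimension zero
-/

set_option autoImplicit false

namespace Pool.Agent.Y904.BHX

open Filter MeasureTheory Metric Pool.Agent.H341Q.BH Topology
open scoped ENNReal NNReal Nat

/-- the subgroup of `ℝ^d` -/
noncomputable def KD (d : ℕ) : AddSubgroup (Fin d → ℝ) where
  carrier := {x | ∀ i, x i ∈ HN}
  add_mem' := fun hx hy i => HN.add_mem (hx i) (hy i)
  zero_mem' := fun _ => HN.zero_mem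
  neg_mem' := fun hx i => HN.neg_mem (hx i)

lemma mem_KD {d : ℕ} {x : Fin d → ℝ} : x ∈ KD d ↔ ∀ i, x i ∈ HN := Iff.rfl

lemma V_mono {C C' n : ℕ} (h : C ≤ C') : V C n ⊆ V C' n := by
  rintro x ⟨k, hk⟩
  refine ⟨k, hk.trans ?_⟩
  have : (0 : ℝ) < Q n := by exact_mod_cast Q_pos n
  exact div_le_div_of_nonneg_right (by exact_mod_cast h) this.le

theorem dim_KD (d : ℕ) : dimH (KD d : Set (Fin d → ℝ)) = 0 := by
  have h1 : (KD d : Set (Fin d → ℝ)) ⊆ ⋃ C : ℕ,
      {x : Fin d → ℝ | ∃ᶠ n in atTop, ∀ i, x i ∈ DD C n} := by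
    intro x hx
    have hx' : ∀ i, ∃ C : ℕ, ∀ᶠ n in (hyperfilter ℕ : Filter ℕ), x i ∈ V C n := hx
    choose C hC using hx'
    rw [Set.mem_iUnion]
    refine ⟨∑ i, C i, ?_⟩
    have h2 : ∀ᶠ n in (hyperfilter ℕ : Filter ℕ), ∀ i, x i ∈ DD (∑ i, C i) n := by
      rw [eventually_all]
      intro i
      filter_upwards [hC i] with n hn
      exact V_sub _ _ (V_mono (Finset.single_le_sum (fun _ _ => Nat.zero_le _)
        (Finset.mem_univ i)) hn)
    exact h2.frequently.filter_mono Nat.hyperfilter_le_atTop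
  refine le_antisymm ((dimH_mono h1).trans ?_) bot_le
  rw [dimH_iUnion]
  exact iSup_le fun C => (dim_DD d C).le

lemma nstepD {d : ℕ} (m : ℕ) (u : Fin d → ℝ) (U : Set (Fin d → ℝ)) (hU : IsOpen U)
    (hd : Dense U) :
    ∃ (m' : ℕ) (u' : Fin d → ℝ), m < m' ∧ (∀ i, ∃ z : ℤ, (q m' : ℝ) * u' i = z) ∧
      (∀ x : Fin d → ℝ, (∀ i, |x i - u' i| ≤ 1 / q m') → x ∈ U) ∧
      (∀ x : Fin d → ℝ, (∀ i, |x i - u' i| ≤ 1 / q m') → ∀ i, |x i - u i| ≤ 1 / q m) := by
  have hq : (0 : ℝ) < q m := by exact_mod_cast q_pos m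
  obtain ⟨y, hyU, hy⟩ := hd.exists_dist_lt u (by positivity : (0 : ℝ) < 1 / (2 * q m))
  rw [dist_comm, dist_pi_lt_iff (by positivity)] at hy
  simp only [Real.dist_eq] at hy
  obtain ⟨r, hr, hball⟩ := Metric.isOpen_iff.1 hU y hyU
  obtain ⟨m', hm', hm2⟩ : ∃ m', m < m' ∧ (2 : ℝ) / q m' < min r (1 / (2 * q m)) := by
    have hmin : 0 < min r (1 / (2 * (q m : ℝ))) := lt_min hr (by positivity)
    obtain ⟨N, hN⟩ := exists_nat_gt (2 / min r (1 / (2 * (q m : ℝ))))
    refine ⟨max N (m + 1), by omega, ?_⟩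
    have h1 := q_ge (max N (m + 1))
    have h2 : (N : ℝ) ≤ (max N (m + 1) : ℕ) := by exact_mod_cast le_max_left _ _
    have h3 : (0 : ℝ) < q (max N (m + 1)) := by exact_mod_cast q_pos _
    rw [div_lt_iff₀ h3]
    rw [div_lt_iff₀ hmin] at hN
    nlinarith
  have hqm : (0 : ℝ) < q m' := by exact_mod_cast q_pos m'
  have h1 : ∀ i, |y i - (round ((q m' : ℝ) * y i) : ℝ) / q m'| ≤ 1 / q m' / 2 := by
    intro i
    have h2 : y i - (round ((q m' : ℝ) * y i) : ℝ) / q m' =
        ((q m' : ℝ) * y i - round ((q m' : ℝ) * y i)) / q m' := by field_simp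
    rw [h2, abs_div, abs_of_pos hqm, div_le_iff₀ hqm]
    have h3 := abs_sub_round ((q m' : ℝ) * y i)
    have h4 : 1 / (q m' : ℝ) / 2 * q m' = 1 / 2 := by field_simp
    rw [h4]; exact h3
  have hr' : (2 : ℝ) / q m' = 1 / q m' + 1 / q m' := by ring
  rw [hr'] at hm2
  have hm3 := lt_min_iff.1 hm2
  have hpos : 0 < 1 / (q m' : ℝ) := by positivity
  refine ⟨m', fun i => (round ((q m' : ℝ) * y i) : ℝ) / q m', hm',
    fun i => ⟨round ((q m' : ℝ) * y i), by field_simp⟩, fun x hx => ?_, fun x hx i => ?_⟩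
  · apply hball
    rw [mem_ball, dist_pi_lt_iff hr]
    intro i
    rw [Real.dist_eq]
    have hxi := hx i
    have h1i := h1 i
    rw [abs_le] at hxi h1i
    rw [abs_lt]
    constructor <;> linarith [hxi.1, hxi.2, h1i.1, h1i.2, hm3.1]
  · have h5 : (1 : ℝ) / q m = 1 / (2 * q m) + 1 / (2 * q m) := by field_simp; ring
    rw [h5]
    have hxi := hx i
    have h1i := h1 i
    have hyi := hy i
    rw [abs_le] at hxi h1i ⊢
    rw [abs_lt] at hyi
    constructor <;> linarith [hxi.1, hxi.2, h1i.1, h1i.2, hm3.2, hyi.1, hyi.2]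

/-- the recursive construction of two points -/
lemma two_tracksD {d : ℕ} (U : ℕ → Set (Fin d → ℝ)) (hU : ∀ j, IsOpen (U j))
    (hd : ∀ j, Dense (U j)) :
    ∃ (m : ℕ → ℕ) (w : ℕ → Fin d → ℝ), StrictMono m ∧
      (∀ k i, ∃ z : ℤ, (q (m (k + 1)) : ℝ) * w (k + 2) i = z) ∧
      (∀ k (x : Fin d → ℝ), (∀ i, |x i - w (k + 2) i| ≤ 1 / q (m (k + 1))) → x ∈ U k) ∧
      (∀ k (x : Fin d → ℝ), (∀ i, |x i - w (k + 2) i| ≤ 1 / q (m (k + 1))) →
        ∀ i, |x i - w k i| ≤ 1 / q (m k)) := by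
  choose M Y h1 h2 h3 h4 using @nstepD d
  let st : ℕ → ℕ × (Fin d → ℝ) × (Fin d → ℝ) := fun k => Nat.rec (0, 0, 0)
    (fun k s => (M s.1 s.2.1 (U k) (hU k) (hd k), s.2.2, Y s.1 s.2.1 (U k) (hU k) (hd k))) k
  have hm : ∀ k, (st (k + 1)).1 = M (st k).1 (st k).2.1 (U k) (hU k) (hd k) := fun k => rfl
  have hw : ∀ k, (st (k + 2)).2.1 = Y (st k).1 (st k).2.1 (U k) (hU k) (hd k) := fun k => rfl
  refine ⟨fun k => (st k).1, fun k => (st k).2.1, ?_, ?_, ?_, ?_⟩
  · apply strictMono_nat_of_lt_succ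
    intro k
    rw [hm k]
    exact h1 _ _ _ _ _
  · intro k
    have := h2 (st k).1 (st k).2.1 (U k) (hU k) (hd k)
    rw [← hm k, ← hw k] at this
    exact this
  · intro k x hx
    have := h3 (st k).1 (st k).2.1 (U k) (hU k) (hd k) x
    rw [← hm k, ← hw k] at this
    exact this hx
  · intro k x hx
    have := h4 (st k).1 (st k).2.1 (U k) (hU k) (hd k) x
    rw [← hm k, ← hw k] at this
    exact this hx

theorem KD_nonmeagre (d : ℕ) : ¬ IsMeagre (KD d : Set (Fin d → ℝ)) := by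
  intro hm
  obtain ⟨T, hT1, hT2, hT3⟩ : ∃ T ⊆ ((KD d : Set (Fin d → ℝ))ᶜ), IsGδ T ∧ Dense T := by
    rw [← mem_residual]; exact hm
  obtain ⟨f, hf1, hf2⟩ := isGδ_iff_eq_iInter_nat.1 hT2
  set U : ℕ → Set (Fin d → ℝ) := fun j => ⋂ i ∈ Finset.range (j + 1), f i with hUdef
  have hU : ∀ j, IsOpen (U j) := fun j => isOpen_biInter_finset fun i _ => hf1 i
  have hd : ∀ j, Dense (U j) := fun j => hT3.mono (by
    intro x hx
    rw [hf2, Set.mem_iInter] at hx
    exact Set.mem_iInter₂.2 fun i _ => hx i)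
  obtain ⟨m, w, hmono, hz, hin, hnest⟩ := two_tracksD U hU hd
  have hlim : ∀ i : ℕ, ∃ x : Fin d → ℝ, ∀ k j, |x j - w (i + 2 * k) j| ≤ 1 / q (m (i + 2 * k)) := by
    intro i
    obtain ⟨x, hx⟩ : (⋂ k, closedBall (w (i + 2 * k)) (1 / (q (m (i + 2 * k)) : ℝ))).Nonempty := by
      apply IsCompact.nonempty_iInter_of_sequence_nonempty_isCompact_isClosed
      · intro k x hx
        rw [mem_closedBall, dist_pi_le_iff (by positivity)] at hx ⊢
        simp only [Real.dist_eq] at hx ⊢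
        apply hnest
        intro j
        refine (hx j).trans ?_
        have h1 : (q (m (i + 2 * k + 1)) : ℝ) ≤ q (m (i + 2 * (k + 1))) :=
          q_mono (hmono.monotone (by omega))
        have h2 : (0 : ℝ) < q (m (i + 2 * k + 1)) := by exact_mod_cast q_pos _
        exact one_div_le_one_div_of_le h2 h1
      · intro k; exact ⟨_, mem_closedBall_self (by positivity)⟩
      · exact isCompact_closedBall _ _
      · intro k; exact isClosed_closedBall
    refine ⟨x, fun k j => ?_⟩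
    have := Set.mem_iInter.1 hx k
    rw [mem_closedBall, dist_pi_le_iff (by positivity)] at this
    exact this j
  choose x hx using hlim
  have hnot : ∀ i, x i ∉ KD d := by
    intro i
    apply hT1
    rw [hf2, Set.mem_iInter]
    intro j
    have h1 : x i ∈ U (i + 2 * j) := by
      apply hin
      intro l
      refine (hx i (j + 1) l).trans ?_
      have h1 : (q (m (i + 2 * j + 1)) : ℝ) ≤ q (m (i + 2 * (j + 1))) :=
        q_mono (hmono.monotone (by omega))
      have h2 : (0 : ℝ) < q (m (i + 2 * j + 1)) := by exact_mod_cast q_pos _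
      exact one_div_le_one_div_of_le h2 h1
    exact Set.mem_iInter₂.1 h1 j (Finset.mem_range.2 (by omega))
  have hlev : ∀ i k n, m (i + 2 * k + 1) ≤ n → n < m (i + 2 * k + 2) → ∀ l, x i l ∈ V 1 n := by
    intro i k n h1 h2 l
    obtain ⟨z, hz⟩ := hz (i + 2 * k) l
    have h3 := hx i (k + 1) l
    have hqn : (0 : ℝ) < q n := by exact_mod_cast q_pos n
    have hQn : (0 : ℝ) < Q n := by exact_mod_cast Q_pos n
    obtain ⟨c, hc⟩ := q_dvd h1
    refine ⟨c * z, ?_⟩
    have h4 : (q n : ℝ) * w (i + 2 * k + 2) l = c * z := by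
      rw [hc]; push_cast; rw [← hz]; ring
    have h5 : (q n : ℝ) * x i l - ((c * z : ℤ) : ℝ) = q n * (x i l - w (i + 2 * k + 2) l) := by
      push_cast; rw [← h4]; ring
    rw [h5, abs_mul, abs_of_pos hqn]
    have h6 : |x i l - w (i + 2 * k + 2) l| ≤ 1 / (q n * Q n) := by
      refine h3.trans ?_
      have h7 : (q (n + 1) : ℝ) ≤ q (m (i + 2 * (k + 1))) := q_mono h2
      have h8 : (q (n + 1) : ℝ) = q n * Q n := q_succ n
      rw [← h8]
      exact one_div_le_one_div_of_le (by exact_mod_cast q_pos (n + 1)) h7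
    calc (q n : ℝ) * |x i l - w (i + 2 * k + 2) l| ≤ q n * (1 / (q n * Q n)) :=
          mul_le_mul_of_nonneg_left h6 hqn.le
      _ = ((1 : ℕ) : ℝ) / Q n := by push_cast; field_simp
  have hcover : ∀ᶠ n in (hyperfilter ℕ : Filter ℕ), (∀ l, x 0 l ∈ V 1 n) ∨ ∀ l, x 1 l ∈ V 1 n := by
    apply Nat.hyperfilter_le_atTop
    filter_upwards [eventually_ge_atTop (m 1)] with n hn
    have hex : ∃ k, n < m (k + 1) := ⟨n, by have := hmono.id_le (n + 1); simp only [id] at this; omega⟩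
    classical
    set k := Nat.find hex with hk
    have hk1 : n < m (k + 1) := Nat.find_spec hex
    have hk0 : 0 < k := by
      rcases Nat.eq_zero_or_pos k with h | h
      · rw [h, Nat.zero_add] at hk1; omega
      · exact h
    have hk2 : m k ≤ n := by
      have := Nat.find_min hex (Nat.sub_lt hk0 Nat.one_pos)
      rw [Nat.sub_add_cancel hk0] at this
      omega
    rcases Nat.even_or_odd k with ⟨j, hj⟩ | ⟨j, hj⟩
    · right
      refine hlev 1 (j - 1) n ?_ ?_
      · have : 1 + 2 * (j - 1) + 1 = k := by omega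
        rw [this]; exact hk2
      · have : 1 + 2 * (j - 1) + 2 = k + 1 := by omega
        rw [this]; exact hk1
    · left
      refine hlev 0 j n ?_ ?_
      · have : 0 + 2 * j + 1 = k := by omega
        rw [this]; exact hk2
      · have : 0 + 2 * j + 2 = k + 1 := by omega
        rw [this]; exact hk1
  rw [Ultrafilter.eventually_or] at hcover
  rcases hcover with h | h
  · exact hnot 0 fun l => ⟨1, h.mono fun n hn => hn l⟩
  · exact hnot 1 fun l => ⟨1, h.mono fun n hn => hn l⟩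

/-- A set with the Baire property that contains `KD d` and is invariant under it is everything. -/
theorem coreD {d : ℕ} (B : Set (Fin d → ℝ)) (hB : BaireMeasurableSet B)
    (hK : (KD d : Set (Fin d → ℝ)) ⊆ B) (hinv : ∀ x ∈ B, ∀ h ∈ KD d, x + h ∈ B) :
    B = Set.univ := by
  by_contra hne
  obtain ⟨y, hy⟩ := (Set.ne_univ_iff_exists_notMem B).1 hne
  obtain ⟨O, hO1, hO2⟩ := hB.residualEq_isOpen
  have hOne : O.Nonempty := by
    rw [Set.nonempty_iff_ne_empty]
    intro hemp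
    rw [hemp] at hO2
    apply KD_nonmeagre d
    have h1 : ∀ᶠ t in residual (Fin d → ℝ), t ∉ (KD d : Set (Fin d → ℝ)) := by
      filter_upwards [hO2] with t ht hc
      have h2 : (t ∈ B) = (t ∈ (∅ : Set (Fin d → ℝ))) := ht
      exact Set.notMem_empty t (h2 ▸ hK hc)
    exact h1
  have hmeag : ∀ᶠ t in residual (Fin d → ℝ), t ∈ B := by
    obtain ⟨o, ho⟩ := hOne
    set E : Set (Fin d → ℝ) := {x | ∀ i, x i ∈ HD} with hE
    have hE1 : E.Countable := Set.countable_pi fun _ => HD_countable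
    have hE2 : E ⊆ (KD d : Set (Fin d → ℝ)) := by
      intro x hx
      have hx' : ∀ i, x i ∈ HD := hx
      exact fun i => HD_sub (hx' i)
    have hE3 : Dense E := by
      have h := dense_pi (Set.univ : Set (Fin d)) (s := fun _ => HD) (fun _ _ => HD_dense)
      refine h.mono fun x hx => ?_
      show ∀ i, x i ∈ HD
      exact fun i => Set.mem_pi.1 hx i (Set.mem_univ i)
    have h1 : ∀ e ∈ E, ∀ᶠ t in residual (Fin d → ℝ), t + e ∈ B ↔ t + e ∈ O := by
      intro e _
      have h2 : ∀ᶠ t in residual (Fin d → ℝ), t ∈ B ↔ t ∈ O := by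
        filter_upwards [hO2] with t ht
        exact iff_of_eq ht
      exact (tendsto_residual_of_isOpenMap (continuous_add_const e)
        (isOpenMap_add_right e)).eventually h2
    have h3 : ∀ᶠ t in residual (Fin d → ℝ), ∀ e ∈ E, (t + e ∈ B ↔ t + e ∈ O) :=
      (eventually_countable_ball hE1).2 h1
    filter_upwards [h3] with t ht
    obtain ⟨e, he1, he2⟩ : ∃ e ∈ E, t + e ∈ O := by
      have hop : IsOpen ((fun e => t + e) ⁻¹' O) := hO1.preimage (continuous_const_add t)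
      obtain ⟨e, he1, he2⟩ := hE3.inter_open_nonempty _ hop ⟨o - t, by simp [ho]⟩
      exact ⟨e, he2, he1⟩
    have h4 : t + e ∈ B := (ht e he1).2 he2
    have h5 := hinv _ h4 (-e) ((KD d).neg_mem (hE2 he1))
    rwa [add_neg_cancel_right] at h5
  apply KD_nonmeagre d
  have h6 : ∀ᶠ t in residual (Fin d → ℝ), t + y ∈ B :=
    (tendsto_residual_of_isOpenMap (continuous_add_const y) (isOpenMap_add_right y)).eventually hmeag
  have h7 : ∀ᶠ t in residual (Fin d → ℝ), t ∉ (KD d : Set (Fin d → ℝ)) := by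
    filter_upwards [h6] with t ht hc
    apply hy
    have h8 := hinv _ ht (-t) ((KD d).neg_mem hc)
    have h9 : t + y + -t = y := by abel
    rwa [h9] at h8
  exact h7

end Pool.Agent.Y904.BHX
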